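import Mathlib
import Pool.Agent.Q76.SfFinal

namespace Pool.Agent.Results.MP_d583b7_an.SemiFredholmPreserver

open Q76.SF

/-- **Negation of Q2.**  There are an infinite-dimensional complex Banach space `X` and a linear
map `φ : B(X) → B(X)` (even bounded, bijective and unital) that preserves the semi-Fredholm
operators in both directions and is surjective up to compact operators, but does not map compact
operators to compact operators; so `φ` does not have form (SF). -/
theorem result : ∃ (X : Type) (_ : NormedAddCommGroup X) (_ : NormedSpace ℂ X),
    CompleteSpace X ∧ ¬ FiniteDimensional ℂ X ∧ ∃ φ : OpMap X, IsCounterexample φ := by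
  refine ⟨XX, inferInstance, inferInstance, inferInstance, not_finiteDimensional,
    (phi : (XX →L[ℂ] XX) →ₗ[ℂ] (XX →L[ℂ] XX)), counterexample.1, counterexample.2.1,
    counterexample.2.2, phi_bijective, phi.continuous, ?_⟩
  show phi 1 = 1
  rw [phi_apply, ell_one, zero_smul, add_zero]

end Pool.Agent.Results.MP_d583b7_an.SemiFredholmPreserver
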